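import Pool.Agent.H174.GP.StA
import Pool.Agent.H174.GP.StP
import Pool.Agent.H174.GP.StC

set_option autoImplicit false

/-! # Project GP (helper174): typicality and parity (by helper703) -/

open MeasureTheory ProbabilityTheory Finset Filter Topology

namespace Pool.Agent.H703.GP174.PT

open Pool.Agent.H174.GP

/-- the centred sum over `J` -/
noncomputable def DD (σ : ℝ) (J : Finset ℕ) (ω : ℕ → ℝ) : ℝ :=
  ∑ j ∈ J, ((j : ℝ) * |(Tq (σ * j) (ω j) : ℝ)| - ∫ x, (j : ℝ) * |(Tq (σ * j) x : ℝ)| ∂lap)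

/-- the sum over `J` -/
noncomputable def NN (σ : ℝ) (J : Finset ℕ) (ω : ℕ → ℝ) : ℤ :=
  ∑ j ∈ J, (j : ℤ) * |Tq (σ * j) (ω j)|

/-- the event -/
def EE (σ : ℝ) (J : Finset ℕ) (t : ℝ) (r : ℤ) : Set (ℕ → ℝ) :=
  {ω | |DD σ J ω| < t ∧ NN σ J ω % 2 = r}

/-- the event for one coordinate -/
def FF (σ : ℝ) (js : ℕ) (q : ℤ) : Set (ℕ → ℝ) := {ω | Tq (σ * js) (ω js) = q}

theorem meas_abs (σ : ℝ) (hσ : 0 < σ) (h6 : S_Tq) (j : ℕ) (hj : 1 ≤ j) :
    Measurable (fun x : ℝ => (j : ℝ) * |(Tq (σ * j) x : ℝ)|) := by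
  have hj' : (0 : ℝ) < j := by exact_mod_cast hj
  have h1 : Measurable (Tq (σ * j)) := (h6 (σ * j) (mul_pos hσ hj')).2.2.2.1
  have h2 : Measurable (fun k : ℤ => (j : ℝ) * |(k : ℝ)|) := Measurable.of_discrete
  exact h2.comp h1

theorem meas_DD (σ : ℝ) (hσ : 0 < σ) (h6 : S_Tq) (J : Finset ℕ) (hJ : ∀ j ∈ J, 1 ≤ j) :
    Measurable (DD σ J) := by
  unfold DD
  refine Finset.measurable_sum J fun j hj => ?_
  exact ((meas_abs σ hσ h6 j (hJ j hj)).comp (measurable_pi_apply j)).sub measurable_const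

theorem meas_NN (σ : ℝ) (hσ : 0 < σ) (h6 : S_Tq) (J : Finset ℕ) (hJ : ∀ j ∈ J, 1 ≤ j) :
    Measurable (NN σ J) := by
  unfold NN
  refine Finset.measurable_sum J fun j hj => ?_
  have hj' : (0 : ℝ) < j := by exact_mod_cast hJ j hj
  have h1 : Measurable (Tq (σ * j)) := (h6 (σ * j) (mul_pos hσ hj')).2.2.2.1
  have h2 : Measurable (fun k : ℤ => (j : ℤ) * |k|) := Measurable.of_discrete
  exact (h2.comp h1).comp (measurable_pi_apply j)

theorem meas_EE (σ : ℝ) (hσ : 0 < σ) (h6 : S_Tq) (J : Finset ℕ) (hJ : ∀ j ∈ J, 1 ≤ j) (t : ℝ)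
    (r : ℤ) : MeasurableSet (EE σ J t r) := by
  have h1 : MeasurableSet {ω | |DD σ J ω| < t} := by
    have h := (meas_DD σ hσ h6 J hJ).abs
    exact measurableSet_lt h measurable_const
  have h2 : MeasurableSet {ω | NN σ J ω % 2 = r} := by
    have h : MeasurableSet ((NN σ J) ⁻¹' {k : ℤ | k % 2 = r}) :=
      (meas_NN σ hσ h6 J hJ) MeasurableSet.of_discrete
    exact h
  exact h1.inter h2

theorem meas_FF (σ : ℝ) (hσ : 0 < σ) (h6 : S_Tq) (js : ℕ) (hj : 1 ≤ js) (q : ℤ) :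
    MeasurableSet (FF σ js q) := by
  have hj' : (0 : ℝ) < js := by exact_mod_cast hj
  have h1 : Measurable (Tq (σ * js)) := (h6 (σ * js) (mul_pos hσ hj')).2.2.2.1
  have h2 : Measurable (fun ω : ℕ → ℝ => Tq (σ * js) (ω js)) := h1.comp (measurable_pi_apply js)
  exact h2 (MeasurableSet.of_discrete (s := {q}))

theorem prob_FF (σ : ℝ) (hσ : 0 < σ) (h6 : S_Tq) (js : ℕ) (hj : 1 ≤ js) (q : ℤ) :
    PP.real (FF σ js q) = lap.real {x | Tq (σ * js) x = q} := by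
  have hj' : (0 : ℝ) < js := by exact_mod_cast hj
  have h1 : Measurable (Tq (σ * js)) := (h6 (σ * js) (mul_pos hσ hj')).2.2.2.1
  have hs : MeasurableSet {x | Tq (σ * js) x = q} := h1 (MeasurableSet.of_discrete (s := {q}))
  have h := (measurePreserving_eval_infinitePi (fun _ : ℕ => lap) js).measure_preimage
    hs.nullMeasurableSet
  unfold Measure.real
  rw [← h]
  rfl

theorem dep_EE (σ : ℝ) (J : Finset ℕ) (t : ℝ) (r : ℤ) : DepOn J (EE σ J t r) := by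
  intro ω ω' h hω
  have h1 : DD σ J ω' = DD σ J ω := by
    unfold DD
    exact Finset.sum_congr rfl fun j hj => by rw [h j hj]
  have h2 : NN σ J ω' = NN σ J ω := by
    unfold NN
    exact Finset.sum_congr rfl fun j hj => by rw [h j hj]
  show |DD σ J ω'| < t ∧ NN σ J ω' % 2 = r
  rw [h1, h2]
  exact hω

theorem dep_FF (σ : ℝ) (js : ℕ) (q : ℤ) : DepOn {js} (FF σ js q) := by
  intro ω ω' h hω
  show Tq (σ * js) (ω' js) = q
  rw [← h js (Finset.mem_singleton_self js)]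
  exact hω

theorem mean_eq (σ : ℝ) (hσ : 0 < σ) (h3 : S_Tqmean) (j : ℕ) (hj : 1 ≤ j) :
    (∫ x, (j : ℝ) * |(Tq (σ * j) x : ℝ)| ∂lap) =
      (j : ℝ) * (2 * Real.exp (-(σ * j)) / (1 - Real.exp (-(2 * σ * j)))) := by
  have hj' : (0 : ℝ) < j := by exact_mod_cast hj
  rw [integral_const_mul, h3 (σ * j) (mul_pos hσ hj'), mul_assoc 2 σ (j : ℝ)]

theorem sq_int (σ : ℝ) (hσ : 0 < σ) (h6 : S_Tq) (d : ℕ) (cv Cv κ : ℝ)
    (hA : Adm (fun j x => (Tq (σ * j) x : ℝ)) (1 / σ) d cv Cv κ) (j : ℕ)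
    (hj : j ∈ Finset.Icc 1 d) :
    Integrable (fun x => ((j : ℝ) * |(Tq (σ * j) x : ℝ)|) ^ 2) lap ∧
      (∫ x, ((j : ℝ) * |(Tq (σ * j) x : ℝ)|) ^ 2 ∂lap) ≤ Cv / σ ^ 2 := by
  have hj1 : 1 ≤ j := (Finset.mem_Icc.mp hj).1
  have hj' : (0 : ℝ) < j := by exact_mod_cast hj1
  have e : (fun x => ((j : ℝ) * |(Tq (σ * j) x : ℝ)|) ^ 2) =
      fun x => (j : ℝ) ^ 2 * (Tq (σ * j) x : ℝ) ^ 2 := by
    funext x
    rw [mul_pow, sq_abs]
  have h1 : Measurable (Tq (σ * j)) := (h6 (σ * j) (mul_pos hσ hj')).2.2.2.1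
  have h2 : Measurable (fun x : ℝ => (Tq (σ * j) x : ℝ) ^ 2) :=
    (Measurable.of_discrete : Measurable (fun k : ℤ => ((k : ℝ)) ^ 2)).comp h1
  have h4 : Integrable (fun x => (Tq (σ * j) x : ℝ) ^ 4) lap := hA.int j hj
  have h5 : Integrable (fun x : ℝ => (Tq (σ * j) x : ℝ) ^ 2) lap := by
    refine ((integrable_const (1 : ℝ)).add h4).mono' h2.aestronglyMeasurable
      (Filter.Eventually.of_forall fun x => ?_)
    rw [Real.norm_eq_abs, abs_of_nonneg (sq_nonneg _)]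
    show (Tq (σ * j) x : ℝ) ^ 2 ≤ 1 + (Tq (σ * j) x : ℝ) ^ 4
    nlinarith [sq_nonneg ((Tq (σ * j) x : ℝ) ^ 2 - 1), sq_nonneg ((Tq (σ * j) x : ℝ))]
  rw [e]
  refine ⟨h5.const_mul _, ?_⟩
  rw [integral_const_mul]
  have h7 : (∫ x, (Tq (σ * j) x : ℝ) ^ 2 ∂lap) ≤ Cv * (1 / σ) ^ 2 / (j : ℝ) ^ 2 := hA.hi j hj
  calc (j : ℝ) ^ 2 * ∫ x, (Tq (σ * j) x : ℝ) ^ 2 ∂lap ≤
      (j : ℝ) ^ 2 * (Cv * (1 / σ) ^ 2 / (j : ℝ) ^ 2) := mul_le_mul_of_nonneg_left h7 (by positivity)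
    _ = Cv / σ ^ 2 := by field_simp

/-- the centred sum is small with probability at least `1/2` -/
theorem half (h1 : S_var2) (h6 : S_Tq) (σ : ℝ) (hσ : 0 < σ) (d : ℕ) (hd : 1 ≤ d) (cv Cv κ s1 : ℝ)
    (hs1 : 0 < s1) (hCv : 0 < Cv) (hσd : s1 ≤ σ * d)
    (hA : Adm (fun j x => (Tq (σ * j) x : ℝ)) (1 / σ) d cv Cv κ) (J : Finset ℕ)
    (hJ : J ⊆ Finset.Icc 1 d) :
    1 / 2 ≤ PP.real {ω | |DD σ J ω| < (2 * Cv + 1) / s1 * (d : ℝ) ^ (3 / 2 : ℝ)} := by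
  set t : ℝ := (2 * Cv + 1) / s1 * (d : ℝ) ^ (3 / 2 : ℝ) with ht
  have hd' : (0 : ℝ) < d := by exact_mod_cast hd
  have ht0 : 0 < t := by positivity
  have hJ1 : ∀ j ∈ J, 1 ≤ j := fun j hj => (Finset.mem_Icc.mp (hJ hj)).1
  have hv := h1 J (fun j x => (j : ℝ) * |(Tq (σ * j) x : ℝ)|) t ht0
    (fun j hj => meas_abs σ hσ h6 j (hJ1 j hj)) (fun j hj => (sq_int σ hσ h6 d cv Cv κ hA j (hJ hj)).1)
  have hv' : PP.real {ω | t ≤ |DD σ J ω|} ≤
      (∑ j ∈ J, ∫ x, ((j : ℝ) * |(Tq (σ * j) x : ℝ)|) ^ 2 ∂lap) / t ^ 2 := hv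
  have hsum : (∑ j ∈ J, ∫ x, ((j : ℝ) * |(Tq (σ * j) x : ℝ)|) ^ 2 ∂lap) ≤ d * (Cv / σ ^ 2) := by
    refine (Finset.sum_le_sum fun j hj => (sq_int σ hσ h6 d cv Cv κ hA j (hJ hj)).2).trans ?_
    rw [Finset.sum_const, nsmul_eq_mul]
    refine mul_le_mul_of_nonneg_right ?_ (by positivity)
    have h2 := Finset.card_le_card hJ
    rw [Nat.card_Icc] at h2
    have h3 : J.card ≤ d := by omega
    exact_mod_cast h3
  have ht2 : t ^ 2 = (2 * Cv + 1) ^ 2 / s1 ^ 2 * (d : ℝ) ^ 3 := by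
    rw [ht, mul_pow, div_pow, ← Real.rpow_natCast ((d : ℝ) ^ (3 / 2 : ℝ)) 2,
      ← Real.rpow_mul hd'.le]
    congr 1
    rw [← Real.rpow_natCast]
    congr 1
    norm_num
  have hle : (∑ j ∈ J, ∫ x, ((j : ℝ) * |(Tq (σ * j) x : ℝ)|) ^ 2 ∂lap) / t ^ 2 ≤ 1 / 2 := by
    rw [div_le_iff₀ (by positivity), ht2]
    refine hsum.trans ?_
    have h2 : (d : ℝ) * (Cv / σ ^ 2) ≤ d * (Cv * (d : ℝ) ^ 2 / s1 ^ 2) := by
      refine mul_le_mul_of_nonneg_left ?_ hd'.le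
      rw [div_le_div_iff₀ (by positivity) (by positivity)]
      have h3 : s1 ^ 2 ≤ (σ * d) ^ 2 := pow_le_pow_left₀ hs1.le hσd 2
      nlinarith
    refine h2.trans ?_
    have h4 : (d : ℝ) * (Cv * (d : ℝ) ^ 2 / s1 ^ 2) = Cv * ((d : ℝ) ^ 3 / s1 ^ 2) := by ring
    have h5 : 1 / 2 * ((2 * Cv + 1) ^ 2 / s1 ^ 2 * (d : ℝ) ^ 3) =
        (1 / 2 * (2 * Cv + 1) ^ 2) * ((d : ℝ) ^ 3 / s1 ^ 2) := by ring
    rw [h4, h5]
    refine mul_le_mul_of_nonneg_right ?_ (by positivity)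
    nlinarith
  have hmeas : MeasurableSet {ω | t ≤ |DD σ J ω|} :=
    measurableSet_le measurable_const (meas_DD σ hσ h6 J hJ1).abs
  have hcompl : {ω | |DD σ J ω| < t} = {ω | t ≤ |DD σ J ω|}ᶜ := by
    ext ω
    show |DD σ J ω| < t ↔ ¬ (t ≤ |DD σ J ω|)
    exact not_le.symm
  rw [hcompl, probReal_compl_eq_one_sub hmeas]
  have := hv'.trans hle
  linarith

/-- lower bound for the probability of a value of one coordinate -/
theorem prob_FF_ge (h4 : S_Tqlaw) (h6 : S_Tq) (σ : ℝ) (hσ : 0 < σ) (js : ℕ) (hj : 1 ≤ js)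
    (s1 s2 : ℝ) (h1 : s1 / 2 ≤ σ * js) (h2 : σ * js ≤ s2) (q : ℤ) (hq : q = 0 ∨ q = 1) :
    (1 - Real.exp (-(s1 / 2))) / 2 * Real.exp (-s2) ≤ PP.real (FF σ js q) := by
  have hj' : (0 : ℝ) < js := by exact_mod_cast hj
  have ha : 0 < σ * js := mul_pos hσ hj'
  rw [prob_FF σ hσ h6 js hj q, h4 (σ * js) q ha]
  have e1 : Real.exp (-(σ * js)) ≤ Real.exp (-(s1 / 2)) := Real.exp_le_exp.mpr (by linarith)
  have e2 : Real.exp (-(σ * js)) ≤ 1 := Real.exp_le_one_iff.mpr (by linarith)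
  have e3 : 0 < Real.exp (-(σ * js)) := Real.exp_pos _
  have e4 : Real.exp (-s2) ≤ Real.exp (-(σ * js * (|q| : ℤ))) := by
    refine Real.exp_le_exp.mpr ?_
    rcases hq with rfl | rfl
    · simp only [abs_zero, Int.cast_zero, mul_zero, neg_zero]
      linarith
    · simp only [abs_one, Int.cast_one, mul_one]
      linarith
  refine mul_le_mul ?_ e4 (Real.exp_pos _).le (div_nonneg (by linarith) (by linarith))
  rw [div_le_div_iff₀ (by norm_num) (by linarith)]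
  nlinarith

/-- Typicality and parity with constant probability. -/
theorem gp_pt (h1 : S_var2) (h2 : S_AdmGeo) (h3 : S_Tqmean) (h4 : S_Tqlaw) (h5 : S_indep)
    (h6 : S_Tq) : Pool.Agent.H174.GP.S_PT := by
  intro s1 s2 ε' hs1 hs2 hε'
  obtain ⟨cv, hcv, Cv, hCv, κ, hκ, hAdm⟩ := h2 s2 hs2
  set c0 : ℝ := (1 - Real.exp (-(s1 / 2))) / 2 * Real.exp (-s2) with hc0
  have hexp1 : Real.exp (-(s1 / 2)) < 1 := by
    have h := Real.exp_lt_exp.mpr (show -(s1 / 2) < 0 by linarith)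
    rwa [Real.exp_zero] at h
  have hexp2 : Real.exp (-s1) < 1 := by
    have h := Real.exp_lt_exp.mpr (show -s1 < 0 by linarith)
    rwa [Real.exp_zero] at h
  have hc0p : 0 < c0 := mul_pos (by linarith) (Real.exp_pos _)
  set R : ℝ := (2 * Cv + 1) / s1 with hR
  have hRp : 0 < R := by positivity
  set mb : ℝ := 2 / (1 - Real.exp (-s1)) with hmb
  have hmb0 : 0 < mb := div_pos (by norm_num) (by linarith)
  refine ⟨c0 / 2, by linarith, ?_⟩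
  have hlog : ∀ᶠ d : ℕ in atTop, (R + 1 + mb) ^ 2 ≤ ε' * Real.log d := by
    have h7 : Tendsto (fun d : ℕ => Real.log (d : ℝ)) atTop atTop :=
      Real.tendsto_log_atTop.comp tendsto_natCast_atTop_atTop
    filter_upwards [h7.eventually_ge_atTop ((R + 1 + mb) ^ 2 / ε')] with d hd
    rw [div_le_iff₀ hε'] at hd
    linarith
  obtain ⟨d1, hd1⟩ := eventually_atTop.mp hlog
  refine ⟨max d1 2, fun d hd σ hσ hσ1 hσ2 p hp => ?_⟩
  have hdd1 : d1 ≤ d := (le_max_left _ _).trans hd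
  have hd2 : 2 ≤ d := (le_max_right _ _).trans hd
  have hd' : (2 : ℝ) ≤ d := by exact_mod_cast hd2
  -- the odd index
  obtain ⟨js, hjs1, hjs2, k, hk⟩ : ∃ js : ℕ, d - 1 ≤ js ∧ js ≤ d ∧ ∃ k, js = 2 * k + 1 := by
    rcases Nat.even_or_odd' d with ⟨k, hk | hk⟩
    · exact ⟨d - 1, le_rfl, by omega, k - 1, by omega⟩
    · exact ⟨d, by omega, le_rfl, k, hk⟩
  have hjs0 : 1 ≤ js := by omega
  have hjsm : js ∈ Finset.Icc 1 d := Finset.mem_Icc.mpr ⟨hjs0, hjs2⟩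
  have hjs' : (js : ℝ) ≤ d := by exact_mod_cast hjs2
  have hjs'' : (d : ℝ) / 2 ≤ js := by
    have h7 : d ≤ 2 * js := by omega
    have h8 : (d : ℝ) ≤ 2 * js := by exact_mod_cast h7
    linarith
  have ha1 : s1 / 2 ≤ σ * js := by nlinarith
  have ha2 : σ * js ≤ s2 := by nlinarith
  set J := (Finset.Icc 1 d).erase js with hJ
  have hJs : J ⊆ Finset.Icc 1 d := Finset.erase_subset _ _
  have hJ1 : ∀ j ∈ J, 1 ≤ j := fun j hj => (Finset.mem_Icc.mp (hJs hj)).1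
  have hA := hAdm σ d hσ hσ2
  set t : ℝ := R * (d : ℝ) ^ (3 / 2 : ℝ) with ht
  have hhalf : 1 / 2 ≤ PP.real {ω | |DD σ J ω| < t} :=
    half h1 h6 σ hσ d (by omega) cv Cv κ s1 hs1 hCv hσ1 hA J hJs
  -- the two events
  have hunion : PP.real {ω | |DD σ J ω| < t} ≤ PP.real (EE σ J t p) + PP.real (EE σ J t (1 - p)) := by
    have h7 : {ω | |DD σ J ω| < t} ⊆ EE σ J t p ∪ EE σ J t (1 - p) := by
      intro ω hω
      have h8 : NN σ J ω % 2 = p ∨ NN σ J ω % 2 = 1 - p := by omega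
      rcases h8 with h8 | h8
      · exact Or.inl ⟨hω, h8⟩
      · exact Or.inr ⟨hω, h8⟩
    exact (measureReal_mono h7).trans (measureReal_union_le _ _)
  have hdisj : Disjoint J {js} := by
    rw [Finset.disjoint_singleton_right, hJ]
    exact Finset.notMem_erase js _
  have hi0 : PP.real (EE σ J t p ∩ FF σ js 0) = PP.real (EE σ J t p) * PP.real (FF σ js 0) :=
    h5 J {js} _ _ hdisj (meas_EE σ hσ h6 J hJ1 t p) (meas_FF σ hσ h6 js hjs0 0)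
      (dep_EE σ J t p) (dep_FF σ js 0)
  have hi1 : PP.real (EE σ J t (1 - p) ∩ FF σ js 1) =
      PP.real (EE σ J t (1 - p)) * PP.real (FF σ js 1) :=
    h5 J {js} _ _ hdisj (meas_EE σ hσ h6 J hJ1 t (1 - p)) (meas_FF σ hσ h6 js hjs0 1)
      (dep_EE σ J t (1 - p)) (dep_FF σ js 1)
  have hF0 : c0 ≤ PP.real (FF σ js 0) := prob_FF_ge h4 h6 σ hσ js hjs0 s1 s2 ha1 ha2 0 (Or.inl rfl)
  have hF1 : c0 ≤ PP.real (FF σ js 1) := prob_FF_ge h4 h6 σ hσ js hjs0 s1 s2 ha1 ha2 1 (Or.inr rfl)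
  have hsumlow : c0 / 2 ≤ PP.real ((EE σ J t p ∩ FF σ js 0) ∪ (EE σ J t (1 - p) ∩ FF σ js 1)) := by
    rw [measureReal_union (Set.disjoint_left.mpr fun ω h7 h8 => by
        have h9 : NN σ J ω % 2 = p := h7.1.2
        have h10 : NN σ J ω % 2 = 1 - p := h8.1.2
        omega) ((meas_EE σ hσ h6 J hJ1 t (1 - p)).inter (meas_FF σ hσ h6 js hjs0 1)), hi0, hi1]
    have h7 : PP.real (EE σ J t p) * c0 ≤ PP.real (EE σ J t p) * PP.real (FF σ js 0) :=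
      mul_le_mul_of_nonneg_left hF0 measureReal_nonneg
    have h8 : PP.real (EE σ J t (1 - p)) * c0 ≤ PP.real (EE σ J t (1 - p)) * PP.real (FF σ js 1) :=
      mul_le_mul_of_nonneg_left hF1 measureReal_nonneg
    have h9 : 1 / 2 * c0 ≤ (PP.real (EE σ J t p) + PP.real (EE σ J t (1 - p))) * c0 :=
      mul_le_mul_of_nonneg_right (hhalf.trans hunion) hc0p.le
    linarith
  refine hsumlow.trans (measureReal_mono ?_)
  -- the inclusion
  have hm1 : m1 d σ = (∑ j ∈ J, ∫ x, (j : ℝ) * |(Tq (σ * j) x : ℝ)| ∂lap) +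
      (js : ℝ) * (2 * Real.exp (-(σ * js)) / (1 - Real.exp (-(2 * σ * js)))) := by
    unfold m1
    rw [← Finset.sum_erase_add _ _ hjsm]
    congr 1
    exact Finset.sum_congr rfl fun j hj => (mean_eq σ hσ h3 j (hJ1 j hj)).symm
  have hE0 : 0 ≤ 2 * Real.exp (-(σ * js)) / (1 - Real.exp (-(2 * σ * js))) := by
    refine div_nonneg (by positivity) ?_
    have : Real.exp (-(2 * σ * js)) ≤ 1 := Real.exp_le_one_iff.mpr (by nlinarith)
    linarith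
  have hE1 : 2 * Real.exp (-(σ * js)) / (1 - Real.exp (-(2 * σ * js))) ≤ mb := by
    rw [hmb]
    have e1 : Real.exp (-(2 * σ * js)) ≤ Real.exp (-s1) := Real.exp_le_exp.mpr (by nlinarith)
    have e2 : Real.exp (-(σ * js)) ≤ 1 := Real.exp_le_one_iff.mpr (by nlinarith)
    exact div_le_div₀ (by norm_num) (by linarith) (by linarith) (by linarith)
  have hd32 : (d : ℝ) ≤ (d : ℝ) ^ (3 / 2 : ℝ) := by
    have h7 : (d : ℝ) ^ (1 : ℝ) ≤ (d : ℝ) ^ (3 / 2 : ℝ) :=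
      Real.rpow_le_rpow_of_exponent_le (by linarith) (by norm_num)
    rwa [Real.rpow_one] at h7
  have hbound : ∀ x q E : ℝ, |x| < t → 0 ≤ q → q ≤ 1 → 0 ≤ E → E ≤ mb →
      |x + (js * q - js * E)| ≤ Real.sqrt (ε' * Real.log d) * (d : ℝ) ^ (3 / 2 : ℝ) := by
    intro x q E hx hq0 hq1 hE0 hE1
    have hjsp : (0 : ℝ) ≤ js := Nat.cast_nonneg _
    have h7 : |(js : ℝ) * q - js * E| ≤ d * (1 + mb) := by
      have h8 : (js : ℝ) * q - js * E = js * (q - E) := by ring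
      rw [h8, abs_mul, abs_of_nonneg hjsp]
      refine mul_le_mul hjs' ?_ (abs_nonneg _) (by linarith)
      rw [abs_le]
      constructor <;> linarith
    have h8 : (d : ℝ) * (1 + mb) ≤ (d : ℝ) ^ (3 / 2 : ℝ) * (1 + mb) :=
      mul_le_mul_of_nonneg_right hd32 (by linarith)
    have h9 : R + 1 + mb ≤ Real.sqrt (ε' * Real.log d) := Real.le_sqrt_of_sq_le (hd1 d hdd1)
    have h10 : (R + 1 + mb) * (d : ℝ) ^ (3 / 2 : ℝ) ≤
        Real.sqrt (ε' * Real.log d) * (d : ℝ) ^ (3 / 2 : ℝ) :=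
      mul_le_mul_of_nonneg_right h9 (by positivity)
    have h11 := abs_add_le x ((js : ℝ) * q - js * E)
    rw [ht] at hx
    linarith
  have hsX : ∀ ω, sX σ ω d = NN σ J ω + (js : ℤ) * |Tq (σ * js) (ω js)| := by
    intro ω
    unfold sX NN geo
    rw [← Finset.sum_erase_add _ _ hjsm]
  have hDN : ∀ ω, DD σ J ω = (NN σ J ω : ℝ) -
      ∑ j ∈ J, ∫ x, (j : ℝ) * |(Tq (σ * j) x : ℝ)| ∂lap := by
    intro ω
    unfold DD NN
    rw [Finset.sum_sub_distrib]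
    congr 1
    push_cast
    rfl
  rintro ω (⟨⟨h7, h8⟩, h9⟩ | ⟨⟨h7, h8⟩, h9⟩)
  · have h9' : Tq (σ * js) (ω js) = 0 := h9
    have hs := hsX ω
    rw [h9', abs_zero, mul_zero, add_zero] at hs
    refine ⟨?_, ?_⟩
    · rw [hs, hm1]
      have h10 := hbound (DD σ J ω) 0 _ h7 le_rfl zero_le_one hE0 hE1
      rw [hDN ω] at h10
      refine le_trans (le_of_eq ?_) h10
      congr 1
      ring
    · rw [hs]
      exact h8
  · have h9' : Tq (σ * js) (ω js) = 1 := h9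
    have hs := hsX ω
    rw [h9', abs_one, mul_one] at hs
    refine ⟨?_, ?_⟩
    · rw [hs, hm1]
      have h10 := hbound (DD σ J ω) 1 _ h7 zero_le_one le_rfl hE0 hE1
      rw [hDN ω] at h10
      refine le_trans (le_of_eq ?_) h10
      congr 1
      push_cast
      ring
    · rw [hs]
      omega

end Pool.Agent.H703.GP174.PT
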