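import Pool.Agent.H174.GP.StA

set_option autoImplicit false

/-! # Project GP (helper174): basic facts on `Tq` (by helper703) -/

open MeasureTheory ProbabilityTheory Finset

namespace Pool.Agent.H703.GP174.Tq

open Pool.Agent.H174.GP

theorem cq_nonneg (a : ℝ) (ha : 0 < a) : 0 ≤ cq a := by
  unfold cq
  refine div_nonneg (Real.log_nonneg ?_) ha.le
  have h1 : Real.exp (-a) ≤ 1 := Real.exp_le_one_iff.mpr (by linarith)
  have h2 : 0 < Real.exp (-a) := Real.exp_pos _
  rw [le_div_iff₀ (by linarith)]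
  linarith

theorem cq_le (a : ℝ) (ha : 0 < a) : cq a ≤ 1 / 2 := by
  unfold cq
  rw [div_le_iff₀ ha]
  have h2 : 0 < Real.exp (-a) := Real.exp_pos _
  rw [Real.log_le_iff_le_exp (by positivity), div_le_iff₀ (by linarith)]
  have h3 : Real.exp (1 / 2 * a) * (1 + Real.exp (-a)) =
      Real.exp (1 / 2 * a) + Real.exp (-(1 / 2 * a)) := by
    rw [mul_add, mul_one, ← Real.exp_add]
    congr 2
    ring
  rw [h3]
  have h4 : Real.exp (-(1 / 2 * a)) = (Real.exp (1 / 2 * a))⁻¹ := Real.exp_neg _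
  rw [h4]
  set y := Real.exp (1 / 2 * a) with hy
  have hy0 : 0 < y := Real.exp_pos _
  have h5 : y + y⁻¹ - 2 = (y - 1) ^ 2 / y := by
    field_simp
    ring
  have h6 : 0 ≤ (y - 1) ^ 2 / y := by positivity
  linarith

theorem Tq_pos (a x : ℝ) (hx : 0 ≤ x) : Tq a x = ⌊x / a + cq a⌋ := by
  unfold Tq
  rw [if_pos hx]

theorem Tq_neg (a x : ℝ) (hx : x < 0) : Tq a x = - ⌊(-x) / a + cq a⌋ := by
  unfold Tq
  rw [if_neg (not_le.mpr hx)]

theorem Tq_zero (a : ℝ) (ha : 0 < a) : Tq a 0 = 0 := by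
  rw [Tq_pos a 0 le_rfl, zero_div, zero_add, Int.floor_eq_zero_iff]
  exact ⟨cq_nonneg a ha, by linarith [cq_le a ha]⟩

theorem Tq_odd (a : ℝ) (ha : 0 < a) (x : ℝ) : Tq a (-x) = - Tq a x := by
  rcases lt_trichotomy x 0 with h | h | h
  · rw [Tq_pos a (-x) (by linarith), Tq_neg a x h, neg_neg]
  · rw [h, neg_zero, Tq_zero a ha, neg_zero]
  · rw [Tq_neg a (-x) (by linarith), Tq_pos a x h.le, neg_neg]

theorem Tq_nonneg (a : ℝ) (ha : 0 < a) (x : ℝ) (hx : 0 ≤ x) : 0 ≤ Tq a x := by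
  rw [Tq_pos a x hx]
  refine Int.floor_nonneg.mpr ?_
  have := cq_nonneg a ha
  positivity

theorem Tq_mono (a : ℝ) (ha : 0 < a) : Monotone (Tq a) := by
  have key : ∀ x y : ℝ, 0 ≤ x → x ≤ y → Tq a x ≤ Tq a y := by
    intro x y hx hxy
    rw [Tq_pos a x hx, Tq_pos a y (hx.trans hxy)]
    refine Int.floor_le_floor ?_
    have h1 : x / a ≤ y / a := div_le_div_of_nonneg_right hxy ha.le
    linarith
  intro x y hxy
  rcases le_or_gt 0 x with hx | hx
  · exact key x y hx hxy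
  · have h1 := Tq_nonneg a ha (-x) (by linarith)
    rw [Tq_odd a ha x] at h1
    rcases le_or_gt 0 y with hy | hy
    · have h2 := Tq_nonneg a ha y hy
      linarith
    · have h2 := key (-y) (-x) (by linarith) (by linarith)
      rw [Tq_odd a ha x, Tq_odd a ha y] at h2
      linarith

theorem Tq_close (a : ℝ) (ha : 0 < a) (x : ℝ) : |(Tq a x : ℝ) - x / a| ≤ 1 := by
  have key : ∀ x : ℝ, 0 ≤ x → |(Tq a x : ℝ) - x / a| ≤ 1 := by
    intro x hx
    rw [Tq_pos a x hx]
    have h1 := Int.floor_le (x / a + cq a)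
    have h2 := Int.lt_floor_add_one (x / a + cq a)
    have h3 := cq_nonneg a ha
    have h4 := cq_le a ha
    rw [abs_le]
    constructor <;> linarith
  rcases le_or_gt 0 x with hx | hx
  · exact key x hx
  · have h1 := key (-x) (by linarith)
    rw [Tq_odd a ha x] at h1
    push_cast at h1
    have h2 : -(Tq a x : ℝ) - -x / a = -((Tq a x : ℝ) - x / a) := by ring
    rw [h2, abs_neg] at h1
    exact h1

/-- Basic facts on `Tq`. -/
theorem gp_tq : Pool.Agent.H174.GP.S_Tq := fun a ha =>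
  ⟨⟨cq_nonneg a ha, cq_le a ha⟩, Tq_odd a ha, Tq_mono a ha, (Tq_mono a ha).measurable,
    Tq_close a ha⟩

end Pool.Agent.H703.GP174.Tq
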